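import Pool.Agent.H33.SG4

set_option autoImplicit false

namespace Pool.Agent.Results.MP_ab53ee_gt.CHCex

open Set Filter Topology Cardinal Pool.Agent.H33.GrothDefs Pool.Agent.H33.Groth Pool.Agent.H33.SG4

theorem result (hCH : continuum.{0} = ℵ_ 1) : ∃ (X Y : Type) (_ : TopologicalSpace X)
    (_ : TopologicalSpace Y), T35Space X ∧ T35Space Y ∧ IsGrothendieck X ∧ IsGrothendieck Y ∧
      ¬ IsGrothendieck (X ⊕ Y) := by
  obtain ⟨A, h1, h2, ⟨x, h3⟩, h4⟩ := main hCH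
  refine ⟨Y (A true), Y (A false), inferInstance, inferInstance, inferInstance, inferInstance,
    h1 _, h1 _, fun h => ?_⟩
  let E : Ultrafilter ℕ → Y (A true) ⊕ Y (A false) → ℝ := fun u => Sum.elim (ev _ u) (ev _ u)
  have hE : ∀ k : ℕ → ℕ, ∃ u : Ultrafilter ℕ, Continuous (E u) ∧ E u ≠ 0 ∧
      MapClusterPt (E u) atTop fun n => E (pure (k n)) := fun k => by
    obtain ⟨u, u1, ⟨i, u2⟩, u3⟩ := h4 k
    refine ⟨u.map k, (h2 _ _).sumElim (h2 _ _), fun h => u2 ?_,
      (Tendsto.mapClusterPt (tendsto_pi_nhds.2 ?_)).mono u1⟩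
    · cases i
      · exact funext fun y => congrFun h (.inr y)
      · exact funext fun y => congrFun h (.inl y)
    · rintro (y | y)
      · exact tendsto_pi_nhds.1 (u3 _) y
      · exact tendsto_pi_nhds.1 (u3 _) y
  obtain ⟨-, h5⟩ := (g_iff _).1 h {g | Continuous g ∧ g ≠ 0} (fun _ h => h.1)
    (range fun n => E (pure n)) (range_subset_iff.2 fun n => by
      obtain ⟨u, u1, u2, u3⟩ := hE fun _ => n
      rw [← eq_of_nhds_neBot (ClusterPt.mono u3 tendsto_const_nhds)]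
      exact ⟨u1, u2⟩) fun s hs => by
    choose k hk using hs
    obtain ⟨u, u1, u2, u3⟩ := hE k
    exact ⟨_, ⟨u1, u2⟩, (funext hk : _ = s) ▸ u3⟩
  refine (h5 (mem_closure_of_tendsto (f := fun F => E (pure (x F))) (b := atTop)
    (tendsto_pi_nhds.2 ?_) (Eventually.of_forall fun F => ⟨_, rfl⟩))).2 rfl
  rintro (y | y)
  · exact tendsto_pi_nhds.1 (h3 _) y
  · exact tendsto_pi_nhds.1 (h3 _) y

end Pool.Agent.Results.MP_ab53ee_gt.CHCex
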